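import Pool.Agent.Y992.HL.Stm
import Pool.Agent.H983R2.GC.Basic
import Pool.Agent.H983R2.GC.Removal
import Pool.Agent.W405.UG.Osc

set_option autoImplicit false
set_option linter.unusedSectionVars false

/-!
Project HL, part ERRU': the influence of `g` changes little when the colour `c` is erased at its
siblings (after Pool.Agent.W554.UG.Erru).
-/

namespace Pool.Agent.Y891.HL

open Finset Pool.Agent.H983R2.GC Pool.Agent.W341.UG Pool.Agent.Y992.HL

variable {V C : Type} [Fintype V] [DecidableEq V] [Fintype C] [DecidableEq C]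

theorem SlP_subU {G : SimpleGraph V} {s : ℕ} {R S S' : Finset V} {L : V → Finset C}
    (h : SlP G s R S L) (hS : S' ⊆ S) : SlP G s R S' L := fun w hw => h w (hS hw)

/-- pinning keeps the additional slack -/
theorem SlP_pinU (G : SimpleGraph V) (s : ℕ) (R T : Finset V) (L : V → Finset C) (g : V) (c : C)
    (hg : g ∈ R) (h : SlP G s R T L) : SlP G s (R.erase g) T (era L (nb G R g) c) := by
  intro w hw
  have h1 := h w hw
  by_cases hn : w ∈ nb G R g
  · have h2 := card_nb_erase G R g w hg hn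
    have h3 := card_era_le L (nb G R g) c w
    omega
  · rw [era_not_mem _ _ _ _ hn]
    have := card_nb_erase_le G R g w
    omega

theorem adf_updU {W : Finset V} {f : V} (hf : f ∉ W) (t : V → C → ℝ) (τ : V → C) (c : C) :
    adf W t (Function.update τ f c) = adf W t τ := by
  unfold adf
  refine Finset.sum_congr rfl fun w hw => ?_
  have : w ≠ f := fun e => hf (e ▸ hw)
  rw [Function.update_of_ne this]

theorem adf_updK (W : Finset V) (g : V) (t : V → C → ℝ) (c : C) :
    ∃ κ : ℝ, ∀ τ : V → C, adf W t (Function.update τ g c) = κ + adf (W.erase g) t τ := by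
  by_cases hg : g ∈ W
  · refine ⟨t g c, fun τ => ?_⟩
    rw [← adf_updU (notMem_erase g W) t τ c]
    unfold adf
    rw [← Finset.add_sum_erase W _ hg, Function.update_self]
  · refine ⟨0, fun τ => ?_⟩
    rw [erase_eq_of_notMem hg, adf_updU hg, zero_add]

theorem EE_constU (G : SimpleGraph V) (c0 : C) (R : Finset V) (L : V → Finset C)
    (F : (V → C) → ℝ) (κ : ℝ) (hne : (Col G c0 R L).Nonempty) :
    EE G c0 R L (fun τ => κ + F τ) = κ + EE G c0 R L F := by
  have hZ : (0 : ℝ) < (Col G c0 R L).card := by exact_mod_cast Finset.card_pos.mpr hne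
  unfold EE
  rw [Finset.sum_add_distrib, add_div, Finset.sum_const, nsmul_eq_mul, mul_comm,
    mul_div_assoc, div_self hZ.ne', mul_one]

theorem SmI_mono {G : SimpleGraph V} {c0 : C} {s : ℕ} {R R' : Finset V} {h : V} {U U' : Finset V}
    {δ : ℝ} (hR : R' ⊆ R) (hU : U' ⊆ U) (H : SmI G c0 s R h U δ) : SmI G c0 s R' h U' δ :=
  fun R'' L b c t U'' h1 h2 h3 h4 h5 h6 h7 =>
    H R'' L b c t U'' (h1.trans hR) h2 h3 h4 h5 (h6.trans hU) h7

/-- influence of one vertex on an additive function, from `SmI` -/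
theorem uu_SmI (G : SimpleGraph V) (c0 : C) (s : ℕ) (δ : ℝ) (hs : 1 ≤ s) (R : Finset V)
    (L : V → Finset C) (t : V → C → ℝ) (X : Finset V) (i : V) (hi : i ∈ R)
    (hL : Sl G s R L) (hX : X ⊆ R) (ht : Osc t) (hiX : i ∉ X)
    (H : SmI G c0 s (R.erase i) i X δ) (a : C) : |uu G c0 R L (adf X t) i a| ≤ δ := by
  refine Pool.Agent.W405.UG.uu_of_cd G c0 R L i (adf X t) δ hi
    (col_nonempty G c0 R L (Sl_mono G hs R L hL)) ?_ a
  intro a a'
  have h := H (R.erase i) L a a' t X (Finset.Subset.refl _) (notMem_erase i R)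
    (Sl_del G s R L i hi hL) (SlP_del G s R L i hi hL) ht (Finset.Subset.refl _)
    (fun x hx => mem_erase.2 ⟨fun e => hiX (e ▸ hx), hX hx⟩)
  rw [nb_erase_self] at h
  unfold cd
  have e : ∀ a, (fun τ : V → C => adf X t (Function.update τ i a)) = adf X t := fun a => by
    funext τ
    exact adf_updU hiX t τ a
  rw [e a, e a']
  exact h

theorem mainU (hB : S_TELB) (G : SimpleGraph V) (c0 : C) (s : ℕ) (δ : ℝ)
    (hs : 2 ≤ s) (hδ : 0 ≤ δ) (R : Finset V)
    (L : V → Finset C) (c : C) (t : V → C → ℝ) (X T : Finset V)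
    (hT : T ⊆ R) (hL : Sl G s R L) (hP : SlP G s R T L) (hX : X ⊆ R) (ht : Osc t)
    (hfar : ∀ i ∈ T, i ∉ X ∧ SmI G c0 s (R.erase i) i X δ) :
    |EE G c0 R (era L T c) (adf X t) - EE G c0 R L (adf X t)| ≤ (T.card : ℝ) / s * δ := by
  have h := hB V C G c0 s R L (adf X t) c (fun _ => δ) T hs hT hL hP (fun _ _ => hδ) (by
    intro T' hT' i hi _
    obtain ⟨h1, h2⟩ := hfar i hi
    have hL' : Sl G s R (era L T' c) := Sl_era G s R T' L c hL (SlP_subU hP hT')
    exact uu_SmI G c0 s δ (by omega) R (era L T' c) t X i (hT hi) hL' hX ht h1 h2 c)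
  rw [Finset.sum_const, nsmul_eq_mul] at h
  refine h.trans (le_of_eq ?_)
  ring

/-- The influence of `g` changes little when the colour `c` is erased at its siblings. -/
theorem t_ERRU' (hB : S_TELB) : S_ERRU' := by
  intro V C _ _ _ _ G c0 s δ hs hδ R L v c W Wg t hv hL hP hW ht hBr g hg T hT
  have hgR : g ∈ R := nb_subset G R v hg
  have hTn : T ⊆ nb G R v := hT.trans (erase_subset _ _)
  have hTR : T ⊆ R := hTn.trans (nb_subset G R v)
  have hgT : g ∉ T := fun h => (Finset.mem_erase.1 (hT h)).1 rfl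
  have hWgW : Wg g ⊆ W := hBr.sub g hg
  have hWgR : Wg g ⊆ R := hWgW.trans hW
  have hslo : ∀ i ∈ T, i ∉ Wg g := fun i hi =>
    hBr.slo g hg i (hTn hi) (fun e => hgT (e ▸ hi))
  have hovl : ∀ i ∈ T, SmI G c0 s (R.erase i) i (Wg g) δ := fun i hi =>
    hBr.ovl g hg i (hTn hi) (fun e => hgT (e ▸ hi))
  -- the second bracket
  have h2 := mainU hB G c0 s δ hs hδ R L c t (Wg g) T hTR hL
    (SlP_subU hP hTn) hWgR ht (fun i hi => ⟨hslo i hi, hovl i hi⟩)
  -- the first bracket
  have hTR2 : T ⊆ R.erase g := fun i hi => Finset.mem_erase.2 ⟨fun e => hgT (e ▸ hi), hTR hi⟩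
  have hSl2 := Sl_pin G s R L g c hgR hL
  have hSlP2 := SlP_pinU G s R T L g c hgR (SlP_subU hP hTn)
  have h1 := mainU hB G c0 s δ hs hδ (R.erase g) (era L (nb G R g) c) c t
    ((Wg g).erase g) T hTR2 hSl2 hSlP2 (Finset.erase_subset_erase _ hWgR) ht
    (fun i hi => ⟨fun h => hslo i hi (Finset.mem_of_mem_erase h),
      SmI_mono (Finset.erase_subset_erase _ (erase_subset _ _)) (erase_subset _ _) (hovl i hi)⟩)
  obtain ⟨κ, hκ⟩ := adf_updK (Wg g) g t c
  have hfe : (fun τ : V → C => adf (Wg g) t (Function.update τ g c)) =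
      fun τ => κ + adf ((Wg g).erase g) t τ := by
    funext τ
    exact hκ τ
  have hn1 : (Col G c0 (R.erase g) (era (era L (nb G R g) c) T c)).Nonempty :=
    col_nonempty G c0 _ _ (Sl_mono G (by omega) _ _ (Sl_era G s _ T _ c hSl2 hSlP2))
  have hn2 : (Col G c0 (R.erase g) (era L (nb G R g) c)).Nonempty :=
    col_nonempty G c0 _ _ (Sl_mono G (by omega) _ _ hSl2)
  unfold uu cd
  rw [rem_era_comm L T (nb G R g) c c, hfe, EE_constU _ _ _ _ _ _ hn1, EE_constU _ _ _ _ _ _ hn2]
  have e : κ + EE G c0 (R.erase g) (era (era L (nb G R g) c) T c) (adf ((Wg g).erase g) t) -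
        EE G c0 R (era L T c) (adf (Wg g) t) -
      (κ + EE G c0 (R.erase g) (era L (nb G R g) c) (adf ((Wg g).erase g) t) -
        EE G c0 R L (adf (Wg g) t)) =
      (EE G c0 (R.erase g) (era (era L (nb G R g) c) T c) (adf ((Wg g).erase g) t) -
        EE G c0 (R.erase g) (era L (nb G R g) c) (adf ((Wg g).erase g) t)) -
      (EE G c0 R (era L T c) (adf (Wg g) t) - EE G c0 R L (adf (Wg g) t)) := by ring
  rw [e]
  refine (abs_sub _ _).trans ?_
  linarith

end Pool.Agent.Y891.HL
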