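import Pool.Agent.Y992.HL.Stm
import Pool.Agent.H983R2.LG.InfL
import Pool.Agent.H983R2.GC.Removal
import Pool.Agent.W405.UG.Osc

set_option autoImplicit false

/-! Project HL: properties of layers and revealing the layer `k + 1` vertex by vertex
(after Pool.Agent.W348.UG.Ly and Pool.Agent.W378.UG.Rev). -/

namespace Pool.Agent.Y891.HL

open Finset Pool.Agent.H983R2.GC Pool.Agent.W341.UG Pool.Agent.Y992.HL

section

variable {V : Type} [Fintype V] [DecidableEq V]

theorem ly_mem_zero (G : SimpleGraph V) (D : V → V → ℕ) (R : Finset V) (v y : V) :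
    y ∈ lyD G D R v 0 ↔ y = v := by
  simp [lyD]

theorem ly_mem_succ (G : SimpleGraph V) (D : V → V → ℕ) (R : Finset V) (v : V) (i : ℕ) (y : V) :
    y ∈ lyD G D R v (i + 1) ↔
      y ∈ R ∧ D v y = i + 1 ∧ ∃ x ∈ lyD G D R v i, G.Adj x y := by
  classical
  rw [lyD, Finset.mem_filter]

theorem ly_dist (G : SimpleGraph V) (D : V → V → ℕ) (hz : ∀ v w, D v w = 0 ↔ v = w)
    (R : Finset V) (v : V) (i : ℕ) : ∀ w ∈ lyD G D R v i, D v w = i := by
  intro w hw
  cases i with
  | zero =>
      rw [ly_mem_zero] at hw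
      subst hw
      exact (hz w w).2 rfl
  | succ i => exact ((ly_mem_succ G D R v i w).1 hw).2.1

theorem card_lyD (G : SimpleGraph V) (D : V → V → ℕ) (Δ : ℕ) (hΔ : ∀ w, (nb G univ w).card ≤ Δ)
    (R : Finset V) (v : V) (i : ℕ) : (lyD G D R v i).card ≤ Δ ^ i := by
  induction i with
  | zero => simp [lyD]
  | succ i ih =>
      have h1 : lyD G D R v (i + 1) ⊆ (lyD G D R v i).biUnion (fun x => nb G univ x) := by
        intro y hy
        obtain ⟨_, _, x, hx, hxy⟩ := (ly_mem_succ G D R v i y).1 hy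
        rw [Finset.mem_biUnion]
        exact ⟨x, hx, (mem_nb G univ x y).2 ⟨Finset.mem_univ _, hxy⟩⟩
      calc (lyD G D R v (i + 1)).card
          ≤ ((lyD G D R v i).biUnion (fun x => nb G univ x)).card := Finset.card_le_card h1
        _ ≤ (lyD G D R v i).card * Δ := Finset.card_biUnion_le_card_mul _ _ _ fun x _ => hΔ x
        _ ≤ Δ ^ i * Δ := Nat.mul_le_mul_right _ ih
        _ = Δ ^ (i + 1) := by rw [pow_succ]

theorem ly_tri (G : SimpleGraph V) (D : V → V → ℕ) {B K : ℕ} (hD : GD G D B K)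
    (R : Finset V) (v : V) (i : ℕ) : ∀ w ∈ lyD G D R v i, ∀ y, D v y ≤ D w y + i := by
  induction i with
  | zero =>
      intro w hw y
      rw [ly_mem_zero] at hw
      subst hw
      omega
  | succ i ih =>
      intro w hw y
      obtain ⟨_, _, x, hx, hxw⟩ := (ly_mem_succ G D R v i w).1 hw
      have h1 := ih x hx y
      have h2 := hD.lip y x w hxw
      have h3 := hD.symm x y
      have h4 := hD.symm w y
      omega

theorem ly_erase (G : SimpleGraph V) (D : V → V → ℕ) (R : Finset V) (v w : V) (k : ℕ)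
    (hd : D v w = k + 1) (i : ℕ) (hi : i ≤ k) :
    lyD G D (R.erase w) v i = lyD G D R v i := by
  induction i with
  | zero => simp [lyD]
  | succ i ih =>
      ext y
      rw [ly_mem_succ, ly_mem_succ, ih (by omega), Finset.mem_erase]
      constructor
      · rintro ⟨⟨_, h1⟩, h2, h3⟩
        exact ⟨h1, h2, h3⟩
      · rintro ⟨h1, h2, h3⟩
        refine ⟨⟨?_, h1⟩, h2, h3⟩
        rintro rfl
        rw [hd] at h2
        omega

end

/-- Properties of layers. -/
theorem t_LY' : S_LY' := by
  intro V _ _ G D Δ B K hD hΔ R v _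
  refine ⟨card_lyD G D Δ hΔ R v, ly_dist G D hD.zero R v, ?_, ly_tri G D hD R v, ?_⟩
  · intro i y hy
    exact ((ly_mem_succ G D R v i y).1 hy).1
  · intro k w hw
    have hd := ly_dist G D hD.zero R v (k + 1) w hw
    ext y
    rw [Finset.mem_erase, ly_mem_succ, ly_mem_succ, Finset.mem_erase,
      ly_erase G D R v w k hd k le_rfl]
    constructor
    · rintro ⟨⟨h0, h1⟩, h2, h3⟩
      exact ⟨h0, h1, h2, h3⟩
    · rintro ⟨h0, h1, h2, h3⟩
      exact ⟨⟨h0, h1⟩, h2, h3⟩

section

variable {V C : Type} [Fintype V] [DecidableEq V] [Fintype C] [DecidableEq C]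

theorem revD_inner (hB : S_BFS') (hL : S_LY') (hO : S_OSCL)
    (G : SimpleGraph V) (D : V → V → ℕ) (c0 : C) (s Δ N k j B K r0 : ℕ) (ε A om E : ℝ)
    (hs : 2 ≤ s) (hk : 1 ≤ k) (hε : 0 < ε) (hA : 0 ≤ A) (hE : 0 ≤ E)
    (hD : GD G D B K) (hK : k + 2 ≤ K)
    (hΔ : ∀ w, (nb G univ w).card ≤ Δ) (hεΔ : ε * (Δ : ℝ) ≤ s) (hIB : IBD G D c0 s N j A)
    (hsumE : ∀ (R : Finset V) (L : V → Finset C) (v : V) (b c : C) (W : Finset V),
      R.card ≤ N + 1 → v ∉ R → Sl G s R L → SlP G s R (nb G R v) L → W ⊆ R →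
      (∀ w ∈ W, D v w = k + 1) →
      ∑ w ∈ W, ∑ a, |pr G c0 R (era L (nb G R v) b) w a - pr G c0 R (era L (nb G R v) c) w a| ≤
        E) (v : V) (b c : C) (n : ℕ) :
    ∀ (R : Finset V) (L : V → Finset C) (F : (V → C) → ℝ) (W : Finset V),
      R.card ≤ N + 1 → v ∉ R → Sl G s R L → SlP G s R (nb G R v) L → W ⊆ R → Lip W F →
      ((om = 1 ∧ j = 0) ∨ (om = 0 ∧ 1 ≤ j ∧ ∀ w ∈ W, j + (k + 1) ≤ D v w)) →
      (lyD G D R v (k + 1)).card = n →
      |EE G c0 R (era L (nb G R v) b) F - EE G c0 R (era L (nb G R v) c) F| ≤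
        om * ∑ i ∈ Finset.range (k + 1), (2 / ε) ^ (i + 1) +
          (om + A) * ((2 / (s : ℝ)) * ((B : ℝ) * ((k : ℝ) + 1)) *
            ∑ i ∈ Finset.range (k + 1), (2 / ε) ^ i) +
          ((B : ℝ) * ((k : ℝ) + 1)) ^ (k + 1) * ((2 / (s : ℝ)) ^ (k + 1) * (r0 : ℝ)) * A +
          (om + A) * (E * (Hs (max n r0) - Hs r0)) := by
  have hs0 : (0 : ℝ) ≤ 2 / (s : ℝ) := by positivity
  have hB0 : (0 : ℝ) ≤ ((B : ℝ) * ((k : ℝ) + 1)) ^ (k + 1) := by positivity
  induction n with
  | zero =>
    intro R L F W hR hv hSl hSlP hW hF hom hcard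
    have h1 := hB V C G D c0 s Δ N k j B K ε A om hs hε hA hD hK hΔ hεΔ hIB R L v b c F W hR hv
      hSl hSlP hW hF hom
    refine h1.trans ?_
    have h3 : max 0 r0 = r0 := by omega
    rw [hcard, h3, sub_self, mul_zero, mul_zero, add_zero]
    have h4 : ((B : ℝ) * ((k : ℝ) + 1)) ^ (k + 1) * ((2 / (s : ℝ)) ^ (k + 1) * ((0 : ℕ) : ℝ)) * A ≤
        ((B : ℝ) * ((k : ℝ) + 1)) ^ (k + 1) * ((2 / (s : ℝ)) ^ (k + 1) * (r0 : ℝ)) * A := by
      have : (0 : ℝ) ≤
        ((B : ℝ) * ((k : ℝ) + 1)) ^ (k + 1) * ((2 / (s : ℝ)) ^ (k + 1) * (r0 : ℝ)) * A := by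
        positivity
      simpa using this
    linarith
  | succ n ih =>
    intro R L F W hR hv hSl hSlP hW hF hom hcard
    by_cases hn : n + 1 ≤ r0
    · have h1 := hB V C G D c0 s Δ N k j B K ε A om hs hε hA hD hK hΔ hεΔ hIB R L v b c F W hR hv
        hSl hSlP hW hF hom
      refine h1.trans ?_
      have h3 : max (n + 1) r0 = r0 := by omega
      rw [hcard, h3, sub_self, mul_zero, mul_zero, add_zero]
      have h5 : ((n + 1 : ℕ) : ℝ) ≤ (r0 : ℝ) := by exact_mod_cast hn
      have h4 : ((B : ℝ) * ((k : ℝ) + 1)) ^ (k + 1) *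
          ((2 / (s : ℝ)) ^ (k + 1) * ((n + 1 : ℕ) : ℝ)) * A ≤
          ((B : ℝ) * ((k : ℝ) + 1)) ^ (k + 1) * ((2 / (s : ℝ)) ^ (k + 1) * (r0 : ℝ)) * A := by
        apply mul_le_mul_of_nonneg_right _ hA
        apply mul_le_mul_of_nonneg_left _ hB0
        apply mul_le_mul_of_nonneg_left h5
        positivity
      linarith
    · have hmax : max (n + 1) r0 = n + 1 := by omega
      have hmax2 : max n r0 = n := by omega
      obtain ⟨ly1, ly3, ly4, ly5, ly6⟩ := hL V G D Δ B K hD hΔ R v hv
      set U := lyD G D R v (k + 1) with hU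
      have hUR : U ⊆ R := ly4 k
      have hsum := hsumE R L v b c U hR hv hSl hSlP hUR (fun w hw => ly3 (k + 1) w hw)
      have hn1 : (0 : ℝ) < (n : ℝ) + 1 := by positivity
      have hom0 : 0 ≤ om := by
        rcases hom with ⟨h, _⟩ | ⟨h, _⟩ <;> rw [h] <;> norm_num
      -- pick w
      obtain ⟨w, hw, hTw⟩ : ∃ w ∈ U, ∑ a, |pr G c0 R (era L (nb G R v) b) w a -
          pr G c0 R (era L (nb G R v) c) w a| ≤ E / ((n : ℝ) + 1) := by
        by_contra hcon
        push Not at hcon
        have hWne : U.Nonempty := by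
          rw [← Finset.card_pos, hcard]; omega
        have h1 : ∑ w ∈ U, E / ((n : ℝ) + 1) < ∑ w ∈ U, ∑ a,
            |pr G c0 R (era L (nb G R v) b) w a - pr G c0 R (era L (nb G R v) c) w a| :=
          Finset.sum_lt_sum_of_nonempty hWne hcon
        rw [Finset.sum_const, nsmul_eq_mul, hcard] at h1
        have h2 : ((n + 1 : ℕ) : ℝ) * (E / ((n : ℝ) + 1)) = E := by
          push_cast
          field_simp
        linarith
      have hwR : w ∈ R := hUR hw
      have hwk : D v w = k + 1 := ly3 (k + 1) w hw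
      have hwnb : w ∉ nb G R v := by
        intro h
        rw [mem_nb] at h
        have h1 := hD.lip v w v h.2.symm
        have h2 : D v v = 0 := (hD.zero v v).2 rfl
        omega
      have hnb : nb G (R.erase w) v = nb G R v := by
        rw [nb_erase, Finset.erase_eq_of_notMem hwnb]
      have hLb : ∀ d : C, Sl G s R (era L (nb G R v) d) := fun d => Sl_era G s R _ L d hSl hSlP
      have hne : ∀ d : C, (Col G c0 R (era L (nb G R v) d)).Nonempty := fun d =>
        col_nonempty G c0 _ _ (Sl_mono G (by omega) _ _ (hLb d))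
      have hRcard : (R.erase w).card ≤ N + 1 := by
        have := Finset.card_erase_lt_of_mem hwR
        omega
      have hRcard' : (R.erase w).card ≤ N := by
        have := Finset.card_erase_lt_of_mem hwR
        omega
      -- distance from w
      have hfarw : ∀ x ∈ W.erase w, j ≤ D w x := by
        rcases hom with ⟨_, hj⟩ | ⟨_, _, hfar⟩
        · intro x _
          omega
        · intro x hx
          have h1 := hfar x (mem_of_mem_erase hx)
          have h2 := ly5 (k + 1) w hw x
          omega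
      have hwW : om = 0 → w ∉ W := by
        intro h0 hwW
        rcases hom with ⟨h1, _⟩ | ⟨_, hj, hfar⟩
        · rw [h0] at h1; norm_num at h1
        · have := hfar w hwW
          omega
      set P : C → C → ℝ := fun d a => pr G c0 R (era L (nb G R v) d) w a with hP
      set X : C → C → ℝ := fun d a => EE G c0 (R.erase w) (era (era L (nb G R v) d) (nb G R w) a)
        (fun τ => F (Function.update τ w a)) with hX
      have hsplit : ∀ d, EE G c0 R (era L (nb G R v) d) F = ∑ a, P d a * X d a := fun d =>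
        il_EE_split G c0 R _ w hwR F
      -- closeness in a
      have hXa : ∀ d a a', |X d a - X d a'| ≤ om + A := by
        intro d a a'
        have h1 := hO V C G c0 s R (era L (nb G R v) d) w F W A hs hA hwR (hLb d) hF (by
          intro F' hF' a a'
          have h := hIB (R.erase w) (era L (nb G R v) d) w a a' F' (W.erase w) hRcard'
            (notMem_erase w R) (Sl_del G s R _ w hwR (hLb d))
            (SlP_del G s R _ w hwR (hLb d)) (erase_subset_erase w hW) hF' hfarw
          rwa [nb_erase_self] at h)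
        rcases hom with ⟨h0, _⟩ | ⟨h0, _⟩
        · rw [h0]
          exact h1.2.1 a a'
        · rw [h0, zero_add]
          exact (h1.1 (hwW h0)).1 a a'
      -- closeness in d
      set BB : ℝ := om * ∑ i ∈ Finset.range (k + 1), (2 / ε) ^ (i + 1) +
          (om + A) * ((2 / (s : ℝ)) * ((B : ℝ) * ((k : ℝ) + 1)) *
            ∑ i ∈ Finset.range (k + 1), (2 / ε) ^ i) +
          ((B : ℝ) * ((k : ℝ) + 1)) ^ (k + 1) * ((2 / (s : ℝ)) ^ (k + 1) * (r0 : ℝ)) * A +
          (om + A) * (E * (Hs n - Hs r0)) with hBB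
      have hXd : ∀ a, |X b a - X c a| ≤ BB := by
        intro a
        have hcardn : (lyD G D (R.erase w) v (k + 1)).card = n := by
          rw [ly6 k w hw, Finset.card_erase_of_mem hw, hcard]
          rfl
        have := ih (R.erase w) (era L (nb G R w) a) (fun τ => F (Function.update τ w a))
          (W.erase w) hRcard (fun h => hv (mem_of_mem_erase h)) (Sl_pin G s R L w a hwR hSl)
          (by rw [hnb]; exact rem_SlP_pin G s R _ L w a hwR hSlP) (erase_subset_erase w hW)
          (Lip_update W F hF w a) (by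
            rcases hom with h | ⟨h0, hj, hfar⟩
            · exact Or.inl h
            · exact Or.inr ⟨h0, hj, fun x hx => hfar x (mem_of_mem_erase hx)⟩) hcardn
        rw [hnb, rem_era_comm L (nb G R w) (nb G R v) a b,
          rem_era_comm L (nb G R w) (nb G R v) a c, hmax2] at this
        exact this
      have hPsum : ∀ d, ∑ a, P d a = 1 := fun d => pr_sum G c0 R _ w (hne d)
      have hP0 : ∀ d a, 0 ≤ P d a := fun d a => pr_nonneg G c0 R _ w a
      rw [hsplit b, hsplit c]
      have key : ∑ a, P b a * X b a - ∑ a, P c a * X c a =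
          ∑ a, (P b a - P c a) * (X c a - X c c0) + ∑ a, P b a * (X b a - X c a) := by
        have e1 : ∑ a, (P b a - P c a) * (X c a - X c c0) =
            ∑ a, (P b a - P c a) * X c a - (∑ a, (P b a - P c a)) * X c c0 := by
          rw [Finset.sum_mul, ← Finset.sum_sub_distrib]
          refine Finset.sum_congr rfl fun a _ => by ring
        have e2 : ∑ a, (P b a - P c a) = 0 := by
          rw [Finset.sum_sub_distrib, hPsum, hPsum]; ring
        rw [e1, e2, zero_mul, sub_zero, ← Finset.sum_sub_distrib, ← Finset.sum_add_distrib]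
        refine Finset.sum_congr rfl fun a _ => by ring
      rw [key]
      have b1 : |∑ a, (P b a - P c a) * (X c a - X c c0)| ≤ (om + A) * (E / ((n : ℝ) + 1)) := by
        refine (Finset.abs_sum_le_sum_abs _ _).trans ?_
        calc ∑ a, |(P b a - P c a) * (X c a - X c c0)| ≤ ∑ a, (om + A) * |P b a - P c a| := by
              refine Finset.sum_le_sum fun a _ => ?_
              rw [abs_mul, mul_comm]
              exact mul_le_mul_of_nonneg_right (hXa c a c0) (abs_nonneg _)
          _ = (om + A) * ∑ a, |P b a - P c a| := by rw [Finset.mul_sum]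
          _ ≤ _ := mul_le_mul_of_nonneg_left hTw (by linarith)
      have b2 : |∑ a, P b a * (X b a - X c a)| ≤ BB := by
        refine (Finset.abs_sum_le_sum_abs _ _).trans ?_
        calc ∑ a, |P b a * (X b a - X c a)| ≤ ∑ a, P b a * BB := by
              refine Finset.sum_le_sum fun a _ => ?_
              rw [abs_mul, abs_of_nonneg (hP0 b a)]
              exact mul_le_mul_of_nonneg_left (hXd a) (hP0 b a)
          _ = BB := by rw [← Finset.sum_mul, hPsum, one_mul]
      refine (abs_add_le _ _).trans ((add_le_add b1 b2).trans (le_of_eq ?_))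
      rw [hmax, Hs_succ, hBB]
      ring

end

/-- Revealing the layer `k + 1` vertex by vertex. -/
theorem t_REV' (hB : S_BFS') (hL : S_LY') (hO : S_OSCL) : S_REV' := by
  intro V C _ _ _ _ G D c0 s Δ N k j B K r0 ε A om E hs hk hε hA hE hD hK hΔ hεΔ hIB hsumE
    R L v b c F W hR hv hSl hSlP hW hF hom
  exact revD_inner hB hL hO G D c0 s Δ N k j B K r0 ε A om E hs hk hε hA hE hD hK hΔ hεΔ hIB
    hsumE v b c _ R L F W hR hv hSl hSlP hW hF hom rfl

end Pool.Agent.Y891.HL
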